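import Mathlib

set_option autoImplicit false

/-! # Self-similar sets meeting all `k`-planes with small sumsets -/

namespace Pool.Agent.R361.LKD

open Filter Topology

/-- the unit cube -/
def cube (d : ℕ) : Set (EuclideanSpace ℝ (Fin d)) := {x | ∀ i, 0 ≤ x i ∧ x i ≤ 1}

/-- the `l`-fold sumset -/
def sumset {d : ℕ} (l : ℕ) (K : Set (EuclideanSpace ℝ (Fin d))) :
    Set (EuclideanSpace ℝ (Fin d)) :=
  {x | ∃ y : Fin l → EuclideanSpace ℝ (Fin d), (∀ i, y i ∈ K) ∧ x = ∑ i, y i}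

/-- `(l, k, d)`-sets -/
structure IsLKD (l k d : ℕ) (K : Set (EuclideanSpace ℝ (Fin d))) : Prop where
  compact : IsCompact K
  sub : K ⊆ cube d
  meets : ∀ V : AffineSubspace ℝ (EuclideanSpace ℝ (Fin d)), Module.finrank ℝ V.direction = k →
    ((V : Set (EuclideanSpace ℝ (Fin d))) ∩ cube d).Nonempty →
    ((V : Set (EuclideanSpace ℝ (Fin d))) ∩ K).Nonempty
  nowhereDense : IsNowhereDense (sumset l K)

/-- self-similar sets -/
def SelfSimilar {d : ℕ} (K : Set (EuclideanSpace ℝ (Fin d))) : Prop :=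
  K.Nonempty ∧ IsCompact K ∧
    ∃ (m : ℕ) (f : Fin m → EuclideanSpace ℝ (Fin d) → EuclideanSpace ℝ (Fin d)) (r : Fin m → ℝ),
      (∀ i, 0 < r i ∧ r i < 1 ∧ ∀ x y, dist (f i x) (f i y) = r i * dist x y) ∧
      K = ⋃ i, f i '' K

section

variable {d : ℕ}

/-- integer vectors -/
noncomputable def v (a : Fin d → ℤ) : EuclideanSpace ℝ (Fin d) :=
  WithLp.toLp 2 (fun i => (a i : ℝ))

lemma v_apply (a : Fin d → ℤ) (i : Fin d) : v a i = (a i : ℝ) := rfl

lemma v_add (a b : Fin d → ℤ) : v (a + b) = v a + v b := by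
  ext i
  rw [PiLp.add_apply, v_apply, v_apply, v_apply, Pi.add_apply]
  push_cast; ring

lemma v_smul (n : ℤ) (a : Fin d → ℤ) : v (n • a) = (n : ℝ) • v a := by
  ext i
  rw [PiLp.smul_apply, v_apply, v_apply, Pi.smul_apply, smul_eq_mul, smul_eq_mul]
  push_cast; ring

lemma sumset_compact (l : ℕ) {K : Set (EuclideanSpace ℝ (Fin d))} (hK : IsCompact K) :
    IsCompact (sumset l K) := by
  have h : sumset l K = (fun y : Fin l → EuclideanSpace ℝ (Fin d) => ∑ i, y i) ''
      (Set.univ.pi fun _ => K) := by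
    ext x
    constructor
    · rintro ⟨y, hy, rfl⟩
      exact ⟨y, fun i _ => hy i, rfl⟩
    · rintro ⟨y, hy, rfl⟩
      exact ⟨y, fun i => hy i (Set.mem_univ i), rfl⟩
  rw [h]
  apply (isCompact_univ_pi fun _ => hK).image
  exact continuous_finsetSum _ fun i _ => continuous_apply i

/-- a hole -/
lemma exists_hole (l : ℕ) {K : Set (EuclideanSpace ℝ (Fin d))} (hK : IsCompact K)
    (hsub : K ⊆ cube d) (hnd : IsNowhereDense (sumset l K)) :
    ∃ (z : Fin d → ℝ) (ρ : ℝ), 0 < ρ ∧ (∀ i, 0 < z i ∧ z i < 1) ∧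
      ∀ x : EuclideanSpace ℝ (Fin d), (∀ i, |x i - z i| < ρ) → ∀ c : Fin d → ℤ,
        x + v c ∉ sumset l K := by
  classical
  have hc := sumset_compact l hK
  set U : Set (EuclideanSpace ℝ (Fin d)) := {x | ∀ i, 0 < x i ∧ x i < 1} with hU
  have hUo : IsOpen U := by
    have : U = ⋂ i, {x : EuclideanSpace ℝ (Fin d) | 0 < x i ∧ x i < 1} := by
      ext x; simp [hU]
    rw [this]
    apply isOpen_iInter_of_finite
    intro i
    have hci : Continuous fun x : EuclideanSpace ℝ (Fin d) => x i := by fun_prop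
    exact (isOpen_lt continuous_const hci).inter (isOpen_lt hci continuous_const)
  have hUne : U.Nonempty := ⟨WithLp.toLp 2 (fun _ => (1 / 2 : ℝ)), fun i => by
    change 0 < (1 / 2 : ℝ) ∧ (1 / 2 : ℝ) < 1
    norm_num⟩
  set Cs : Finset (Fin d → ℤ) := Fintype.piFinset (fun _ => Finset.Icc (0 : ℤ) l) with hCs
  set F : Set (EuclideanSpace ℝ (Fin d)) := ⋃ c ∈ Cs, (fun x => x + v c) ⁻¹' (sumset l K) with hF
  have hFc : IsClosed F := by
    apply Set.Finite.isClosed_biUnion Cs.finite_toSet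
    intro c _
    exact hc.isClosed.preimage (continuous_id.add continuous_const)
  have hFm : IsMeagre F := by
    apply isMeagre_biUnion Cs.countable_toSet
    intro c _
    have : (fun x => x + v c) ⁻¹' (sumset l K) = (Homeomorph.addRight (v c)) ⁻¹' (sumset l K) := rfl
    rw [this]
    exact hnd.isMeagre.preimage_of_isOpenMap (Homeomorph.addRight (v c)).continuous
      (Homeomorph.addRight (v c)).isOpenMap
  obtain ⟨z, hzU, hzF⟩ : ∃ z ∈ U, z ∉ F := by
    have hd : Dense (Fᶜ) := dense_of_mem_residual hFm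
    obtain ⟨z, hz1, hz2⟩ := hd.inter_open_nonempty U hUo hUne
    exact ⟨z, hz1, hz2⟩
  have hopen : IsOpen ((fun f : Fin d → ℝ => (WithLp.toLp 2 f : EuclideanSpace ℝ (Fin d))) ⁻¹'
      (U ∩ Fᶜ)) := by
    apply (hUo.inter hFc.isOpen_compl).preimage
    exact PiLp.continuous_toLp 2 _
  obtain ⟨ρ, hρ, hball⟩ := Metric.isOpen_iff.mp hopen (fun i => z i) ⟨hzU, hzF⟩
  refine ⟨fun i => z i, ρ, hρ, fun i => hzU i, ?_⟩
  intro x hx c hxc
  have hxb : (fun i => x i) ∈ Metric.ball (fun i => z i) ρ := by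
    rw [Metric.mem_ball, dist_pi_lt_iff hρ]
    intro i
    rw [Real.dist_eq]
    exact hx i
  obtain ⟨h1, h2⟩ := hball hxb
  change x ∈ U at h1
  change x ∉ F at h2
  apply h2
  rw [hF, Set.mem_iUnion₂]
  refine ⟨c, ?_, hxc⟩
  rw [hCs, Fintype.mem_piFinset]
  intro i
  obtain ⟨y, hy, hye⟩ := hxc
  have e1 : x i + c i = ∑ j, (y j) i := by
    have := congrArg (fun w : EuclideanSpace ℝ (Fin d) => w i) hye
    simp only [PiLp.add_apply, v_apply] at this
    rw [this]
    simp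
  have e2 : 0 ≤ ∑ j, (y j) i := Finset.sum_nonneg fun j _ => (hsub (hy j) i).1
  have e3 : ∑ j, (y j) i ≤ l := by
    calc ∑ j, (y j) i ≤ ∑ _j : Fin l, (1 : ℝ) := Finset.sum_le_sum fun j _ => (hsub (hy j) i).2
      _ = l := by simp
  have h3 := h1 i
  rw [Finset.mem_Icc]
  constructor
  · have : (-1 : ℝ) < c i := by linarith
    have : (-1 : ℤ) < c i := by exact_mod_cast this
    omega
  · have : (c i : ℝ) < l := by linarith
    have : c i < (l : ℤ) := by exact_mod_cast this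
    omega

variable (n : ℕ) (D : Set (Fin d → ℤ))

/-- the set of the points with digits in `D` -/
def Kd : Set (EuclideanSpace ℝ (Fin d)) :=
  {x | ∃ a : ℕ → (Fin d → ℤ), (∀ j, a j ∈ D) ∧ ∀ i, x i = ∑' j, (a j i : ℝ) / (n : ℝ) ^ (j + 1)}

variable (hn : 2 ≤ n) (hD : ∀ a ∈ D, ∀ i, 0 ≤ a i ∧ a i ≤ (n : ℤ) - 1)

include hn

lemma geom_sum : Summable (fun j : ℕ => ((n : ℝ) - 1) / (n : ℝ) ^ (j + 1)) ∧
    ∑' j : ℕ, ((n : ℝ) - 1) / (n : ℝ) ^ (j + 1) = 1 := by
  have hn0 : (0 : ℝ) < n := by exact_mod_cast (by omega : 0 < n)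
  have hn1 : (1 : ℝ) < n := by exact_mod_cast (by omega : 1 < n)
  have h1 : (n : ℝ)⁻¹ < 1 := inv_lt_one_of_one_lt₀ hn1
  have e : (fun j : ℕ => ((n : ℝ) - 1) / (n : ℝ) ^ (j + 1)) =
      fun j => (((n : ℝ) - 1) / n) * ((n : ℝ)⁻¹) ^ j := by
    funext j
    rw [inv_pow, pow_succ]
    field_simp
  rw [e]
  have hs := summable_geometric_of_lt_one (by positivity) h1
  refine ⟨hs.mul_left _, ?_⟩
  rw [tsum_mul_left, tsum_geometric_of_lt_one (by positivity) h1]
  have : (n : ℝ) - 1 ≠ 0 := by linarith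
  field_simp

include hD

lemma dig_sum (a : ℕ → (Fin d → ℤ)) (ha : ∀ j, a j ∈ D) (i : Fin d) :
    Summable (fun j : ℕ => (a j i : ℝ) / (n : ℝ) ^ (j + 1)) := by
  have hn0 : (0 : ℝ) < n := by exact_mod_cast (by omega : 0 < n)
  apply Summable.of_nonneg_of_le (fun j => ?_) (fun j => ?_) (geom_sum n hn).1
  · have : (0 : ℝ) ≤ a j i := by exact_mod_cast (hD _ (ha j) i).1
    positivity
  · apply div_le_div_of_nonneg_right _ (by positivity)
    have := (hD _ (ha j) i).2
    have h : ((a j i : ℤ) : ℝ) ≤ (((n : ℤ) - 1 : ℤ) : ℝ) := by exact_mod_cast this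
    push_cast at h
    exact h

lemma Kd_sub : Kd n D ⊆ cube d := by
  rintro x ⟨a, ha, hx⟩ i
  have hn0 : (0 : ℝ) < n := by exact_mod_cast (by omega : 0 < n)
  rw [hx i]
  constructor
  · apply tsum_nonneg
    intro j
    have : (0 : ℝ) ≤ a j i := by exact_mod_cast (hD _ (ha j) i).1
    positivity
  · rw [← (geom_sum n hn).2]
    apply Summable.tsum_le_tsum _ (dig_sum n D hn hD a ha i) (geom_sum n hn).1
    intro j
    apply div_le_div_of_nonneg_right _ (by positivity)
    have := (hD _ (ha j) i).2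
    have h : ((a j i : ℤ) : ℝ) ≤ (((n : ℤ) - 1 : ℤ) : ℝ) := by exact_mod_cast this
    push_cast at h
    exact h

lemma Kd_cons (x : EuclideanSpace ℝ (Fin d)) (hx : x ∈ Kd n D) (a : Fin d → ℤ) (ha : a ∈ D) :
    ((n : ℝ)⁻¹) • (v a + x) ∈ Kd n D := by
  have hn0 : (0 : ℝ) < n := by exact_mod_cast (by omega : 0 < n)
  obtain ⟨b, hb, hxb⟩ := hx
  refine ⟨fun j => Nat.casesOn j a b, ?_, ?_⟩
  · intro j
    cases j with
    | zero => exact ha
    | succ j => exact hb j
  · intro i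
    have hs := dig_sum n D hn hD (fun j => Nat.casesOn j a b) (by
      intro j
      cases j with
      | zero => exact ha
      | succ j => exact hb j) i
    rw [hs.tsum_eq_zero_add]
    simp only [PiLp.smul_apply, PiLp.add_apply, v_apply, smul_eq_mul, hxb i]
    rw [mul_add, ← tsum_mul_left]
    congr 1
    · simp [div_eq_inv_mul]
    · apply tsum_congr
      intro j
      rw [pow_succ (n : ℝ) (j + 1)]
      field_simp

lemma Kd_uncons (x : EuclideanSpace ℝ (Fin d)) (hx : x ∈ Kd n D) :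
    ∃ a ∈ D, ∃ y ∈ Kd n D, (n : ℝ) • x = v a + y := by
  have hn0 : (0 : ℝ) < n := by exact_mod_cast (by omega : 0 < n)
  obtain ⟨b, hb, hxb⟩ := hx
  refine ⟨b 0, hb 0, WithLp.toLp 2 (fun i => ∑' j, (b (j + 1) i : ℝ) / (n : ℝ) ^ (j + 1)),
    ⟨fun j => b (j + 1), fun j => hb (j + 1), fun i => rfl⟩, ?_⟩
  ext i
  have hs := dig_sum n D hn hD b hb i
  rw [PiLp.smul_apply, PiLp.add_apply, v_apply, hxb i, hs.tsum_eq_zero_add, smul_eq_mul, mul_add,
    ← tsum_mul_left]
  congr 1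
  · rw [zero_add, pow_one]; field_simp
  · apply tsum_congr
    intro j
    rw [pow_succ (n : ℝ) (j + 1)]
    field_simp

lemma Kd_iter (m : ℕ) : ∀ x ∈ Kd n D, ∃ A : Fin d → ℤ, ∃ y ∈ Kd n D,
    ((n : ℝ) ^ m) • x = v A + y := by
  induction m with
  | zero =>
    intro x hx
    refine ⟨0, x, hx, ?_⟩
    ext i
    simp [v_apply]
  | succ m ih =>
    intro x hx
    obtain ⟨A, y, hy, hxy⟩ := ih x hx
    obtain ⟨a, ha, y', hy', hyy⟩ := Kd_uncons n D hn hD y hy
    refine ⟨(n : ℤ) • A + a, y', hy', ?_⟩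
    rw [pow_succ, mul_comm, mul_smul, hxy, smul_add, hyy, v_add, v_smul]
    push_cast
    rw [add_assoc]

lemma Kd_compact : IsCompact (Kd n D) := by
  have hn0 : (0 : ℝ) < n := by exact_mod_cast (by omega : 0 < n)
  have hDf : D.Finite := by
    apply Set.Finite.subset (Fintype.piFinset (fun _ : Fin d => Finset.Icc (0 : ℤ) ((n : ℤ) - 1))).finite_toSet
    intro a ha
    rw [Finset.mem_coe, Fintype.mem_piFinset]
    intro i
    rw [Finset.mem_Icc]
    exact hD a ha i
  have : Finite D := hDf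
  have hcont : Continuous (fun a : ℕ → D =>
      (WithLp.toLp 2 (fun i => ∑' j, (((a j : Fin d → ℤ) i : ℤ) : ℝ) / (n : ℝ) ^ (j + 1)) :
        EuclideanSpace ℝ (Fin d))) := by
    apply (PiLp.continuous_toLp 2 _).comp
    apply continuous_pi
    intro i
    apply continuous_tsum (u := fun j : ℕ => ((n : ℝ) - 1) / (n : ℝ) ^ (j + 1)) _ (geom_sum n hn).1
    · intro j a
      have h1 := (hD _ (a j).2 i)
      have h0 : (0 : ℝ) ≤ (((a j : Fin d → ℤ) i : ℤ) : ℝ) := by exact_mod_cast h1.1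
      rw [Real.norm_eq_abs, abs_of_nonneg (by positivity)]
      apply div_le_div_of_nonneg_right _ (by positivity)
      have h : (((a j : Fin d → ℤ) i : ℤ) : ℝ) ≤ (((n : ℤ) - 1 : ℤ) : ℝ) := by exact_mod_cast h1.2
      push_cast at h
      exact h
    · intro j
      have hd : Continuous (fun x : D => (((x : Fin d → ℤ) i : ℤ) : ℝ) / (n : ℝ) ^ (j + 1)) :=
        continuous_of_discreteTopology
      exact hd.comp (continuous_apply j)
  have hK : Kd n D = Set.range (fun a : ℕ → D =>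
      (WithLp.toLp 2 (fun i => ∑' j, (((a j : Fin d → ℤ) i : ℤ) : ℝ) / (n : ℝ) ^ (j + 1)) :
        EuclideanSpace ℝ (Fin d))) := by
    ext x
    constructor
    · rintro ⟨a, ha, hx⟩
      refine ⟨fun j => ⟨a j, ha j⟩, ?_⟩
      ext i
      exact (hx i).symm
    · rintro ⟨a, rfl⟩
      exact ⟨fun j => (a j : Fin d → ℤ), fun j => (a j).2, fun i => rfl⟩
  rw [hK]
  exact isCompact_range hcont

/-- the set with digits in `D` meets all the planes which `K` meets -/
lemma Kd_meets {k : ℕ} {K : Set (EuclideanSpace ℝ (Fin d))} (hsub : K ⊆ cube d)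
    (hmeets : ∀ V : AffineSubspace ℝ (EuclideanSpace ℝ (Fin d)), Module.finrank ℝ V.direction = k →
      ((V : Set (EuclideanSpace ℝ (Fin d))) ∩ cube d).Nonempty →
      ((V : Set (EuclideanSpace ℝ (Fin d))) ∩ K).Nonempty)
    (hDK : ∀ p ∈ K, ∃ a ∈ D, (n : ℝ) • p - v a ∈ cube d)
    (V : AffineSubspace ℝ (EuclideanSpace ℝ (Fin d))) (hV : Module.finrank ℝ V.direction = k)
    (hVc : ((V : Set (EuclideanSpace ℝ (Fin d))) ∩ cube d).Nonempty) :
    ((V : Set (EuclideanSpace ℝ (Fin d))) ∩ Kd n D).Nonempty := by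
  have hn0 : (0 : ℝ) < n := by exact_mod_cast (by omega : 0 < n)
  have hn1 : (1 : ℝ) < n := by exact_mod_cast (by omega : 1 < n)
  set W := V.direction with hW
  have hstep : ∀ p : K, ∃ (a : Fin d → ℤ) (p' : K), a ∈ D ∧
      (p' : EuclideanSpace ℝ (Fin d)) - ((n : ℝ) • (p : EuclideanSpace ℝ (Fin d)) - v a) ∈ W := by
    rintro ⟨p, hp⟩
    obtain ⟨a, ha, hc⟩ := hDK p hp
    obtain ⟨p', hp'1, hp'2⟩ := hmeets (AffineSubspace.mk' ((n : ℝ) • p - v a) W)
      (by rw [AffineSubspace.direction_mk']; exact hV) ⟨_, AffineSubspace.self_mem_mk' _ _, hc⟩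
    refine ⟨a, ⟨p', hp'2⟩, ha, ?_⟩
    have := (AffineSubspace.mem_mk').mp hp'1
    exact this
  choose dig nxt hdig hnxt using hstep
  obtain ⟨p₀, hp₀V, hp₀K⟩ := hmeets V hV hVc
  set P : ℕ → K := fun m => nxt^[m] ⟨p₀, hp₀K⟩ with hP
  have hPs : ∀ m, P (m + 1) = nxt (P m) := fun m => Function.iterate_succ_apply' nxt m _
  -- the tails
  set X : ℕ → EuclideanSpace ℝ (Fin d) := fun m =>
    WithLp.toLp 2 (fun i => ∑' j, ((dig (P (m + j)) i : ℤ) : ℝ) / (n : ℝ) ^ (j + 1)) with hX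
  have hXK : ∀ m, X m ∈ Kd n D := fun m =>
    ⟨fun j => dig (P (m + j)), fun j => hdig _, fun i => rfl⟩
  have hXs : ∀ m, (n : ℝ) • X m = v (dig (P m)) + X (m + 1) := by
    intro m
    ext i
    have hs := dig_sum n D hn hD (fun j => dig (P (m + j))) (fun j => hdig _) i
    rw [PiLp.smul_apply, PiLp.add_apply, v_apply]
    change (n : ℝ) • (∑' j, ((dig (P (m + j)) i : ℤ) : ℝ) / (n : ℝ) ^ (j + 1)) = _ +
      ∑' j, ((dig (P (m + 1 + j)) i : ℤ) : ℝ) / (n : ℝ) ^ (j + 1)
    rw [hs.tsum_eq_zero_add, smul_eq_mul, mul_add, ← tsum_mul_left]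
    congr 1
    · rw [zero_add, pow_one, add_zero]; field_simp
    · apply tsum_congr
      intro j
      rw [pow_succ (n : ℝ) (j + 1), show m + (j + 1) = m + 1 + j by ring]
      field_simp
  set e : ℕ → EuclideanSpace ℝ (Fin d) := fun m => X m - (P m : EuclideanSpace ℝ (Fin d)) with he
  have hes : ∀ m, (n : ℝ) • e m - e (m + 1) ∈ W := by
    intro m
    have h1 := hnxt (P m)
    rw [← hPs m] at h1
    have : (n : ℝ) • e m - e (m + 1) = (P (m + 1) : EuclideanSpace ℝ (Fin d)) -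
        ((n : ℝ) • (P m : EuclideanSpace ℝ (Fin d)) - v (dig (P m))) := by
      rw [he]
      simp only [smul_sub]
      rw [hXs m]
      abel
    rw [this]
    exact h1
  have hmem : ∀ m, e 0 - ((n : ℝ)⁻¹ ^ m) • e m ∈ W := by
    intro m
    induction m with
    | zero => simp
    | succ m ih =>
      have : e 0 - ((n : ℝ)⁻¹ ^ (m + 1)) • e (m + 1) = (e 0 - ((n : ℝ)⁻¹ ^ m) • e m) +
          ((n : ℝ)⁻¹ ^ (m + 1)) • ((n : ℝ) • e m - e (m + 1)) := by
        have h1 : ∀ u w : EuclideanSpace ℝ (Fin d), ((n : ℝ)⁻¹ ^ (m + 1)) • ((n : ℝ) • u - w) =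
            ((n : ℝ)⁻¹ ^ m) • u - ((n : ℝ)⁻¹ ^ (m + 1)) • w := by
          intro u w
          rw [smul_sub, smul_smul, pow_succ, mul_assoc, inv_mul_cancel₀ hn0.ne', mul_one]
        rw [h1 (e m) (e (m + 1))]
        abel
      rw [this]
      exact W.add_mem ih (W.smul_mem _ (hes m))
  have hbd : ∃ C : ℝ, ∀ m, ‖e m‖ ≤ C := by
    have hcb : Bornology.IsBounded (cube d) := by
      have : cube d ⊆ (WithLp.toLp 2 : (Fin d → ℝ) → EuclideanSpace ℝ (Fin d)) ''
          (Set.Icc 0 1) := by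
        intro x hx
        exact ⟨fun i => x i, ⟨fun i => (hx i).1, fun i => (hx i).2⟩, rfl⟩
      apply Bornology.IsBounded.subset _ this
      exact (isCompact_Icc.image (PiLp.continuous_toLp 2 _)).isBounded
    obtain ⟨C, hC⟩ := hcb.exists_norm_le
    refine ⟨C + C, fun m => (norm_sub_le _ _).trans (add_le_add ?_ ?_)⟩
    · exact hC _ (Kd_sub n D hn hD (hXK m))
    · exact hC _ (hsub (P m).2)
  obtain ⟨C, hC⟩ := hbd
  have hlim : Tendsto (fun m : ℕ => e 0 - ((n : ℝ)⁻¹ ^ m) • e m) atTop (𝓝 (e 0)) := by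
    have h1 : Tendsto (fun m : ℕ => ((n : ℝ)⁻¹ ^ m) • e m) atTop (𝓝 0) := by
      apply squeeze_zero_norm (a := fun m : ℕ => (n : ℝ)⁻¹ ^ m * C)
      · intro m
        rw [norm_smul, norm_pow, norm_inv, Real.norm_of_nonneg hn0.le]
        exact mul_le_mul_of_nonneg_left (hC m) (by positivity)
      · rw [← zero_mul C]
        apply Tendsto.mul_const
        exact tendsto_pow_atTop_nhds_zero_of_lt_one (by positivity) (inv_lt_one_of_one_lt₀ hn1)
    have h2 := (tendsto_const_nhds (x := e 0)).sub h1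
    rwa [sub_zero] at h2
  have he0 : e 0 ∈ W := by
    have hcl : IsClosed (W : Set (EuclideanSpace ℝ (Fin d))) := W.closed_of_finiteDimensional
    exact hcl.mem_of_tendsto hlim (Eventually.of_forall hmem)
  refine ⟨X 0, ?_, hXK 0⟩
  have : X 0 = e 0 +ᵥ p₀ := by
    rw [vadd_eq_add, he]
    change X 0 = X 0 - p₀ + p₀
    abel
  rw [this]
  exact AffineSubspace.vadd_mem_of_mem_direction he0 hp₀V

end

/-- **Main theorem.** -/
theorem main (l k d : ℕ) (hkd : k ≤ d)
    (hK : ∃ K : Set (EuclideanSpace ℝ (Fin d)), IsLKD l k d K) :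
    ∃ K : Set (EuclideanSpace ℝ (Fin d)), IsLKD l k d K ∧ SelfSimilar K := by
  obtain ⟨K, hK⟩ := hK
  obtain ⟨z, ρ, hρ, hz, hhole⟩ := exists_hole l hK.compact hK.sub hK.nowhereDense
  obtain ⟨n, hn⟩ := exists_nat_gt (max 2 ((l + 2) / ρ))
  have hn2' : (2 : ℝ) < n := lt_of_le_of_lt (le_max_left _ _) hn
  have hn2 : 2 ≤ n := by
    have : 2 < n := by exact_mod_cast hn2'
    omega
  have hn0 : (0 : ℝ) < n := by linarith
  have hlρ : ((l : ℝ) + 2) / n < ρ := by
    have h1 : ((l : ℝ) + 2) / ρ < n := lt_of_le_of_lt (le_max_right _ _) hn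
    rw [div_lt_iff₀ hρ] at h1
    rw [div_lt_iff₀ hn0]
    linarith
  set y : Fin d → ℤ := fun i => ⌊(n : ℝ) * z i⌋ with hy
  have hy1 : ∀ i, (y i : ℝ) ≤ n * z i ∧ (n : ℝ) * z i < y i + 1 := fun i =>
    ⟨Int.floor_le _, Int.lt_floor_add_one _⟩
  have hy0 : ∀ i, 0 ≤ y i ∧ y i ≤ (n : ℤ) - 1 := by
    intro i
    constructor
    · exact Int.floor_nonneg.mpr (mul_nonneg hn0.le (hz i).1.le)
    · have : (n : ℝ) * z i < n := by nlinarith [(hz i).2]
      have h2 : y i < (n : ℤ) := by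
        rw [hy]
        rw [Int.floor_lt]
        exact_mod_cast this
      omega
  set D : Set (Fin d → ℤ) := {a | (∀ i, 0 ≤ a i ∧ a i ≤ (n : ℤ) - 1) ∧
    ∃ p ∈ K, ∀ i, (a i : ℝ) ≤ n * p i ∧ (n : ℝ) * p i ≤ a i + 1} with hDd
  have hD : ∀ a ∈ D, ∀ i, 0 ≤ a i ∧ a i ≤ (n : ℤ) - 1 := fun a ha => ha.1
  have hDK : ∀ p ∈ K, ∃ a ∈ D, (n : ℝ) • p - v a ∈ cube d := by
    intro p hp
    have hp' := hK.sub hp
    set a : Fin d → ℤ := fun i => min ⌊(n : ℝ) * p i⌋ ((n : ℤ) - 1) with ha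
    have hfl : ∀ i, 0 ≤ ⌊(n : ℝ) * p i⌋ := fun i =>
      Int.floor_nonneg.mpr (mul_nonneg hn0.le (hp' i).1)
    have ha1 : ∀ i, (a i : ℝ) ≤ n * p i := by
      intro i
      have h1 : (a i : ℝ) ≤ ⌊(n : ℝ) * p i⌋ := by exact_mod_cast min_le_left _ _
      exact h1.trans (Int.floor_le _)
    have ha2 : ∀ i, (n : ℝ) * p i ≤ a i + 1 := by
      intro i
      rcases le_total ⌊(n : ℝ) * p i⌋ ((n : ℤ) - 1) with h | h
      · have : a i = ⌊(n : ℝ) * p i⌋ := min_eq_left h
        rw [this]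
        exact (Int.lt_floor_add_one _).le
      · have : a i = (n : ℤ) - 1 := min_eq_right h
        rw [this]
        push_cast
        nlinarith [(hp' i).2]
    refine ⟨a, ⟨fun i => ⟨le_min (hfl i) (by omega), min_le_right _ _⟩, p, hp, fun i =>
      ⟨ha1 i, ha2 i⟩⟩, ?_⟩
    intro i
    rw [PiLp.sub_apply, PiLp.smul_apply, v_apply, smul_eq_mul]
    constructor
    · linarith [ha1 i]
    · linarith [ha2 i]
  have hmeets := fun V hV hVc => Kd_meets n D hn2 hD (k := k) hK.sub hK.meets hDK V hV hVc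
  have hcomp := Kd_compact n D hn2 hD
  -- nonempty
  have hne : (Kd n D).Nonempty := by
    obtain ⟨W, hW⟩ : ∃ W : Submodule ℝ (EuclideanSpace ℝ (Fin d)), Module.finrank ℝ W = k := by
      have hk' : k ≤ Module.finrank ℝ (EuclideanSpace ℝ (Fin d)) := by
        rw [finrank_euclideanSpace_fin]; exact hkd
      obtain ⟨b⟩ : Nonempty (Module.Basis (Fin d) ℝ (EuclideanSpace ℝ (Fin d))) :=
        ⟨(EuclideanSpace.basisFun (Fin d) ℝ).toBasis⟩
      refine ⟨Submodule.span ℝ (Set.range (fun i : Fin k => b (Fin.castLE hkd i))), ?_⟩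
      have hli : LinearIndependent ℝ (fun i : Fin k => b (Fin.castLE hkd i)) :=
        b.linearIndependent.comp _ (Fin.castLE_injective hkd)
      rw [finrank_span_eq_card hli, Fintype.card_fin]
    obtain ⟨x, -, hx⟩ := hmeets (AffineSubspace.mk' 0 W)
      (by rw [AffineSubspace.direction_mk']; exact hW)
      ⟨0, AffineSubspace.self_mem_mk' _ _, fun i => by simp⟩
    exact ⟨x, hx⟩
  refine ⟨Kd n D, ⟨hcomp, Kd_sub n D hn2 hD, hmeets, ?_⟩, hne, hcomp, ?_⟩
  · -- nowhere dense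
    have hclosed : IsClosed (sumset l (Kd n D)) := (sumset_compact l hcomp).isClosed
    -- the holes
    have hclaim : ∀ (m : ℕ) (N : Fin d → ℤ) (q : EuclideanSpace ℝ (Fin d)),
        (∀ i, (y i : ℝ) < n * ((n : ℝ) ^ m * q i - N i) ∧
          (n : ℝ) * ((n : ℝ) ^ m * q i - N i) < y i + 1) → q ∉ sumset l (Kd n D) := by
      rintro m N q hq ⟨x, hx, hqx⟩
      have h1 : ∀ j, ∃ (A a : Fin d → ℤ) (x' x'' p : EuclideanSpace ℝ (Fin d)),
          ((n : ℝ) ^ m) • x j = v A + x' ∧ (n : ℝ) • x' = v a + x'' ∧ x'' ∈ cube d ∧ p ∈ K ∧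
          ∀ i, (a i : ℝ) ≤ n * p i ∧ (n : ℝ) * p i ≤ a i + 1 := by
        intro j
        obtain ⟨A, x', hx', e1⟩ := Kd_iter n D hn2 hD m (x j) (hx j)
        obtain ⟨a, ha, x'', hx'', e2⟩ := Kd_uncons n D hn2 hD x' hx'
        obtain ⟨p, hp, hpa⟩ := ha.2
        exact ⟨A, a, x', x'', p, e1, e2, Kd_sub n D hn2 hD hx'', hp, hpa⟩
      choose A a x' x'' p e1 e2 hx'' hp hpa using h1
      set s : EuclideanSpace ℝ (Fin d) := ∑ j, p j with hs
      set c : Fin d → ℤ := N - ∑ j, A j with hc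
      have hs' : s ∈ sumset l K := ⟨p, hp, rfl⟩
      have hxp : ∀ j i, |x' j i - p j i| ≤ 1 / n := by
        intro j i
        have f2 := congrArg (fun w : EuclideanSpace ℝ (Fin d) => w i) (e2 j)
        simp only [PiLp.add_apply, PiLp.smul_apply, v_apply, smul_eq_mul] at f2
        have g1 := hx'' j i
        have g2 := hpa j i
        rw [abs_le]
        have h5 : (n : ℝ) * (x' j i - p j i) ≤ 1 := by nlinarith
        have h6 : -1 ≤ (n : ℝ) * (x' j i - p j i) := by nlinarith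
        constructor
        · rw [neg_le_iff_add_nonneg, ← mul_nonneg_iff_of_pos_left hn0, mul_add]
          have : (n : ℝ) * (1 / n) = 1 := by field_simp
          rw [this]; linarith
        · rw [le_div_iff₀ hn0]; linarith
      apply hhole (s - v c) ?_ c
      · rw [sub_add_cancel]; exact hs'
      · intro i
        have hsum : (n : ℝ) ^ m * q i = ∑ j, ((A j i : ℝ) + x' j i) := by
          rw [hqx]
          have : (∑ j, x j) i = ∑ j, x j i := by simp
          rw [this, Finset.mul_sum]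
          apply Finset.sum_congr rfl
          intro j _
          have f1 := congrArg (fun w : EuclideanSpace ℝ (Fin d) => w i) (e1 j)
          simpa only [PiLp.add_apply, PiLp.smul_apply, v_apply, smul_eq_mul] using f1
        have hci : (c i : ℝ) = N i - ∑ j, (A j i : ℝ) := by
          rw [hc]
          simp only [Pi.sub_apply, Finset.sum_apply]
          push_cast
          ring
        have hsi : s i = ∑ j, p j i := by rw [hs]; simp
        rw [PiLp.sub_apply, v_apply]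
        have hq1 := hq i
        set t : ℝ := (n : ℝ) ^ m * q i - N i with ht
        have ht' : t = (∑ j, x' j i) - c i := by
          rw [ht, hsum, hci, Finset.sum_add_distrib]; ring
        have h7 : |(∑ j, p j i) - ∑ j, x' j i| ≤ l / n := by
          rw [← Finset.sum_sub_distrib]
          refine (Finset.abs_sum_le_sum_abs _ _).trans ?_
          calc ∑ j, |p j i - x' j i| ≤ ∑ _j : Fin l, 1 / (n : ℝ) :=
                Finset.sum_le_sum fun j _ => by rw [abs_sub_comm]; exact hxp j i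
            _ = l / n := by simp; ring
        have h8 : |t - z i| ≤ 1 / n := by
          rw [abs_le]
          have h9 := hy1 i
          have h5 : (n : ℝ) * (t - z i) ≤ 1 := by nlinarith
          have h6 : -1 ≤ (n : ℝ) * (t - z i) := by nlinarith
          constructor
          · rw [neg_le_iff_add_nonneg, ← mul_nonneg_iff_of_pos_left hn0, mul_add]
            have : (n : ℝ) * (1 / n) = 1 := by field_simp
            rw [this]; linarith
          · rw [le_div_iff₀ hn0]; linarith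
        have h10 : s i - c i - z i = ((∑ j, p j i) - ∑ j, x' j i) + (t - z i) := by
          rw [hsi, ht']; ring
        rw [h10]
        refine lt_of_le_of_lt (abs_add_le _ _) (lt_of_le_of_lt (add_le_add h7 h8) ?_)
        refine lt_of_le_of_lt ?_ hlρ
        rw [← add_div]
        apply div_le_div_of_nonneg_right _ hn0.le
        linarith
    rw [IsNowhereDense, hclosed.closure_eq, Set.eq_empty_iff_forall_notMem]
    intro x hx
    have hopen : IsOpen ((fun f : Fin d → ℝ => (WithLp.toLp 2 f : EuclideanSpace ℝ (Fin d))) ⁻¹'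
        (interior (sumset l (Kd n D)))) := isOpen_interior.preimage (PiLp.continuous_toLp 2 _)
    obtain ⟨ε, hε, hball⟩ := Metric.isOpen_iff.mp hopen (fun i => x i) hx
    obtain ⟨m, hm⟩ : ∃ m : ℕ, (1 / (n : ℝ)) ^ m < ε := by
      apply exists_pow_lt_of_lt_one hε
      rw [div_lt_one hn0]
      linarith
    set q : Fin d → ℝ := fun i => ((⌊(n : ℝ) ^ m * x i⌋ : ℝ) + (y i + 1 / 2) / n) / (n : ℝ) ^ m with hq
    have hqb : q ∈ Metric.ball (fun i => x i) ε := by
      rw [Metric.mem_ball, dist_pi_lt_iff hε]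
      intro i
      refine lt_of_le_of_lt ?_ hm
      rw [Real.dist_eq, hq]
      have hnm : (0 : ℝ) < (n : ℝ) ^ m := by positivity
      have h1 := Int.floor_le ((n : ℝ) ^ m * x i)
      have h2 := Int.lt_floor_add_one ((n : ℝ) ^ m * x i)
      have h3 : (0 : ℝ) ≤ y i := by exact_mod_cast (hy0 i).1
      have h4 : (y i : ℝ) + 1 ≤ n := by
        have := (hy0 i).2
        have h : ((y i : ℤ) : ℝ) ≤ (((n : ℤ) - 1 : ℤ) : ℝ) := by exact_mod_cast this
        push_cast at h
        linarith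
      have h5 : 0 ≤ ((y i : ℝ) + 1 / 2) / n := by positivity
      have h6 : ((y i : ℝ) + 1 / 2) / n ≤ 1 := by
        rw [div_le_one hn0]; linarith
      have e1 : ((⌊(n : ℝ) ^ m * x i⌋ : ℝ) + (y i + 1 / 2) / n) / (n : ℝ) ^ m - x i =
          ((⌊(n : ℝ) ^ m * x i⌋ : ℝ) + (y i + 1 / 2) / n - (n : ℝ) ^ m * x i) / (n : ℝ) ^ m := by
        field_simp
      rw [e1, abs_div, abs_of_pos hnm, one_div_pow]
      have h7 : |(⌊(n : ℝ) ^ m * x i⌋ : ℝ) + (y i + 1 / 2) / n - (n : ℝ) ^ m * x i| ≤ 1 := by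
        rw [abs_le]
        constructor <;> linarith
      exact div_le_div_of_nonneg_right h7 hnm.le
    have hqs : (WithLp.toLp 2 q : EuclideanSpace ℝ (Fin d)) ∈ sumset l (Kd n D) :=
      interior_subset (hball hqb)
    apply hclaim m (fun i => ⌊(n : ℝ) ^ m * x i⌋) _ ?_ hqs
    intro i
    have hnm : (0 : ℝ) < (n : ℝ) ^ m := by positivity
    have e2 : (n : ℝ) * ((n : ℝ) ^ m * (WithLp.toLp 2 q : EuclideanSpace ℝ (Fin d)) i -
        (⌊(n : ℝ) ^ m * x i⌋ : ℝ)) = y i + 1 / 2 := by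
      change (n : ℝ) * ((n : ℝ) ^ m * (((⌊(n : ℝ) ^ m * x i⌋ : ℝ) + (y i + 1 / 2) / n) / (n : ℝ) ^ m) -
        (⌊(n : ℝ) ^ m * x i⌋ : ℝ)) = y i + 1 / 2
      field_simp
      ring
    rw [e2]
    constructor <;> linarith
  · -- self-similar
    have hDf : D.Finite := by
      apply Set.Finite.subset
        (Fintype.piFinset (fun _ : Fin d => Finset.Icc (0 : ℤ) ((n : ℤ) - 1))).finite_toSet
      intro a ha
      rw [Finset.mem_coe, Fintype.mem_piFinset]
      intro i
      rw [Finset.mem_Icc]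
      exact hD a ha i
    have hDF : Finite D := hDf
    obtain ⟨M, ⟨eM⟩⟩ := Finite.exists_equiv_fin D
    refine ⟨M, fun i x => ((n : ℝ)⁻¹) • (v (eM.symm i : Fin d → ℤ) + x), fun _ => (n : ℝ)⁻¹, ?_, ?_⟩
    · intro i
      refine ⟨by positivity, inv_lt_one_of_one_lt₀ (by linarith), fun x y => ?_⟩
      rw [dist_smul₀, dist_add_left, norm_inv, Real.norm_of_nonneg hn0.le]
    · ext x
      rw [Set.mem_iUnion]
      constructor
      · intro hx
        obtain ⟨a, ha, y', hy', e⟩ := Kd_uncons n D hn2 hD x hx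
        refine ⟨eM ⟨a, ha⟩, y', hy', ?_⟩
        simp only [Equiv.symm_apply_apply]
        rw [← e, smul_smul, inv_mul_cancel₀ hn0.ne', one_smul]
      · rintro ⟨i, y', hy', rfl⟩
        exact Kd_cons n D hn2 hD y' hy' _ (eM.symm i).2

end Pool.Agent.R361.LKD
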